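import Pool.Agent.Lib.MP_a785f2_an.OM.Defs

/-! The antisymmetric form of the lifted equation. -/

open MeasureTheory Metric Set Filter Topology
open scoped ContDiff RealInnerProductSpace ENNReal

namespace Pool.Agent.Lib.MP_a785f2_an.OM

open HS NH

variable {m M : ℕ} {γ : V m → V M} {τ : V m → V m →L[ℝ] V M}
  {σ : V m → V m →L[ℝ] V m →L[ℝ] V M} {B L : ℝ} {T : V m → Bi m}

/-- Bounded Lipschitz maps. -/
def BL {Y : Type} [NormedAddCommGroup Y] (f : V m → Y) : Prop :=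
  ∃ K : ℝ, 1 ≤ K ∧ (∀ q, ‖f q‖ ≤ K) ∧ ∀ q q', ‖f q - f q'‖ ≤ K * ‖q - q'‖

section
variable {X Y Z : Type} [NormedAddCommGroup X] [NormedSpace ℝ X] [NormedAddCommGroup Y]
  [NormedSpace ℝ Y] [NormedAddCommGroup Z] [NormedSpace ℝ Z]

omit [NormedSpace ℝ X] in
theorem BL.sub {f g : V m → X} (hf : BL f) (hg : BL g) : BL fun q => f q - g q := by
  obtain ⟨K, K1, a1, a2⟩ := hf
  obtain ⟨J, J1, b1, b2⟩ := hg
  refine ⟨K + J, by linarith, fun q => (norm_sub_le _ _).trans (add_le_add (a1 q) (b1 q)),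
    fun q q' => ?_⟩
  rw [sub_sub_sub_comm, add_mul]
  exact (norm_sub_le _ _).trans (add_le_add (a2 q q') (b2 q q'))

theorem BL.app {f : V m → X →L[ℝ] Y} {g : V m → X} (hf : BL f) (hg : BL g) :
    BL fun q => f q (g q) := by
  obtain ⟨K, K1, a1, a2⟩ := hf
  obtain ⟨J, J1, b1, b2⟩ := hg
  have K0 : 0 ≤ K := by linarith
  have J0 : 0 ≤ J := by linarith
  have KJ : 1 ≤ K * J := one_le_mul_of_one_le_of_one_le K1 J1
  refine ⟨2 * (K * J), by linarith, fun q => ?_, fun q q' => ?_⟩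
  · have := ((f q).le_opNorm (g q)).trans (mul_le_mul (a1 q) (b1 q) (norm_nonneg _) K0)
    linarith
  · have e : f q (g q) - f q' (g q') = f q (g q - g q') + (f q - f q') (g q') := by
      rw [map_sub, sub_apply, sub_add_sub_cancel]
    have c1 := ((f q).le_opNorm (g q - g q')).trans
      (mul_le_mul (a1 q) (b2 q q') (norm_nonneg _) K0)
    have c2 := ((f q - f q').le_opNorm (g q')).trans
      (mul_le_mul (a2 q q') (b1 q') (norm_nonneg _) (mul_nonneg K0 (norm_nonneg _)))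
    rw [e]
    refine (norm_add_le _ _).trans ((add_le_add c1 c2).trans (le_of_eq ?_))
    ring

omit [NormedSpace ℝ X] in
theorem BL.const (a : X) : BL fun _ : V m => a :=
  ⟨‖a‖ + 1, by linarith [norm_nonneg a], fun _ => by linarith, fun q q' => by
    rw [sub_self, norm_zero]; positivity⟩

theorem BL.clm (A : X →L[ℝ] Y) {g : V m → X} (hg : BL g) : BL fun q => A (g q) :=
  (BL.const A).app hg

theorem BL.comp {f : V m → Y →L[ℝ] Z} {g : V m → X →L[ℝ] Y} (hf : BL f) (hg : BL g) :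
    BL fun q => (f q).comp (g q) :=
  (BL.clm (ContinuousLinearMap.compL ℝ X Y Z) hf).app hg

end

/-- The adjoint as a real linear map. -/
noncomputable def adjR (m M : ℕ) : (V m →L[ℝ] V M) →L[ℝ] V M →L[ℝ] V m :=
  LinearMap.mkContinuous
    { toFun := fun p => ContinuousLinearMap.adjoint p
      map_add' := fun p q => map_add _ p q
      map_smul' := fun c p => by simp } 1 (fun p => by simp)

theorem adjR_inner (p : V m →L[ℝ] V M) (v : V M) (w : V m) : ⟪adjR m M p v, w⟫ = ⟪v, p w⟫ :=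
  ContinuousLinearMap.adjoint_inner_left p w v

/-- A bilinear map composed with a linear map in both slots. -/
noncomputable def pull {k : ℕ} (β : V m →L[ℝ] V m →L[ℝ] V k) (s : V M →L[ℝ] V m) :
    V M →L[ℝ] V M →L[ℝ] V k :=
  ((ContinuousLinearMap.compL ℝ (V M) (V m) (V k)).flip s).comp (β.comp s)

theorem pull_apply {k : ℕ} (β : V m →L[ℝ] V m →L[ℝ] V k) (s : V M →L[ℝ] V m) (a b : V M) :
    pull β s a b = β (s a) (s b) := rfl

theorem BL.pb {k j : ℕ} {β : V j → V m →L[ℝ] V m →L[ℝ] V k} {s : V j → V M →L[ℝ] V m}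
    (hβ : BL β) (hs : BL s) : BL fun q => pull (β q) (s q) := by
  have h1 := BL.clm (X := V M →L[ℝ] V m) (Y := (V m →L[ℝ] V k) →L[ℝ] V M →L[ℝ] V k)
    (ContinuousLinearMap.compL ℝ (V M) (V m) (V k)).flip hs
  have h2 := BL.comp (X := V M) (Y := V m) (Z := V m →L[ℝ] V k) hβ hs
  have h3 := BL.comp (X := V M) (Y := V m →L[ℝ] V k) (Z := V M →L[ℝ] V k) h1 h2
  exact h3

theorem Torus.form (t : Torus γ τ σ B) (a : Anti T L) : ∃ (T' : V m → Bi M) (L' : ℝ),
    Anti T' L' ∧ ∀ q b c, T' q (τ q b) (τ q c) = σ q b c - τ q (T q b c) := by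
  have bτ : BL τ := ⟨B, t.B1, fun q =>
    (ContinuousLinearMap.opNorm_le_bound _ zero_le_one fun e => by rw [t.iso, one_mul]).trans t.B1,
    fun q q' => convex_univ.norm_image_sub_le_of_norm_hasFDerivWithin_le
      (fun x _ => (t.d2 x).hasFDerivWithinAt) (fun x _ => t.bσ x) (mem_univ q') (mem_univ q)⟩
  have bσ : BL σ := ⟨B, t.B1, t.bσ, t.lσ⟩
  have bT : BL T := ⟨L, a.L1, a.bd, a.lip⟩
  have bs : BL fun q => adjR m M (τ q) :=
    BL.clm (X := V m →L[ℝ] V M) (Y := V M →L[ℝ] V m) (adjR m M) bτ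
  have b1 := bσ.pb bs
  have b2 := BL.comp (X := V M) (Y := V M →L[ℝ] V M) (Z := V M →L[ℝ] V M)
    (BL.const (adjR M M)) b1
  have b3 := BL.comp (X := V M) (Y := V M →L[ℝ] V m) (Z := V M →L[ℝ] V M)
    (BL.clm (X := V m →L[ℝ] V M) (Y := (V M →L[ℝ] V m) →L[ℝ] V M →L[ℝ] V M)
      (ContinuousLinearMap.compL ℝ (V M) (V m) (V M)) bτ) (bT.pb bs)
  obtain ⟨K, K1, k1, k2⟩ := (b1.sub b2).sub b3
  have ev : ∀ q e z, (pull (σ q) (adjR m M (τ q)) - (adjR M M).comp (pull (σ q) (adjR m M (τ q))) -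
      (ContinuousLinearMap.compL ℝ (V M) (V m) (V M) (τ q)).comp
        (pull (T q) (adjR m M (τ q)))) e z =
      σ q (adjR m M (τ q) e) (adjR m M (τ q) z) - adjR M M (pull (σ q) (adjR m M (τ q)) e) z -
        τ q (T q (adjR m M (τ q) e) (adjR m M (τ q) z)) := fun _ _ _ => rfl
  have inv : ∀ q b, adjR m M (τ q) (τ q b) = b := fun q b =>
    DFunLike.congr_fun (((τ q).norm_map_iff_adjoint_comp_self).1 (t.iso q)) b
  refine ⟨_, K, ⟨K1, k1, k2, fun q e z => ?_⟩, fun q b c => ?_⟩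
  · rw [ev, inner_sub_left, inner_sub_left, adjR_inner, pull_apply, real_inner_comm, sub_self,
      real_inner_comm, ← adjR_inner, real_inner_comm, a.anti, sub_zero]
  · have e : adjR M M (pull (σ q) (adjR m M (τ q)) (τ q b)) (τ q c) = 0 := by
      refine ext_inner_right ℝ fun v => ?_
      rw [adjR_inner, pull_apply, real_inner_comm, t.nor, inner_zero_left]
    rw [ev, e, inv, inv, sub_zero]

end Pool.Agent.Lib.MP_a785f2_an.OM
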