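import Pool.Agent.Lib.MP_a785f2_an.OM.Defs
import Pool.Agent.Lib.MP_a785f2_an.LY.TestU

/-! The equation of the lifted map. -/

open MeasureTheory Metric Set Filter Topology
open scoped ContDiff RealInnerProductSpace ENNReal

namespace Pool.Agent.Lib.MP_a785f2_an.OM

open HS NH

variable {n m M : ℕ} {γ : V m → V M} {τ : V m → V m →L[ℝ] V M}
  {σ : V m → V m →L[ℝ] V m →L[ℝ] V M} {B : ℝ}

theorem Torus.cτ (t : Torus γ τ σ B) : Continuous τ :=
  continuous_iff_continuousAt.2 fun q => (t.d2 q).continuousAt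

theorem Torus.cσ (t : Torus γ τ σ B) : Continuous σ := by
  refine continuous_iff_continuousAt.2 fun q => (tendsto_iff_norm_sub_tendsto_zero
    (E := V m →L[ℝ] V m →L[ℝ] V M) (f := σ) (a := 𝓝 q) (b := σ q)).2 ?_
  have h : Tendsto (fun q' => B * ‖q' - q‖) (𝓝 q) (𝓝 (B * ‖q - q‖)) :=
    Continuous.tendsto (by fun_prop) q
  rw [sub_self, norm_zero, mul_zero] at h
  exact squeeze_zero (fun q' => (σ q' - σ q).opNorm_nonneg) (fun q' => t.lσ q' q) h

theorem Torus.nτ (t : Torus γ τ σ B) (q : V m) : ‖τ q‖ ≤ 1 :=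
  ContinuousLinearMap.opNorm_le_bound _ zero_le_one fun e => by rw [t.iso, one_mul]

theorem Torus.nγ (t : Torus γ τ σ B) (q : V m) : ‖γ q‖ ≤ ‖q‖ := by
  have h := convex_univ.norm_image_sub_le_of_norm_hasFDerivWithin_le (f := γ) (f' := τ) (C := 1)
    (fun x _ => (t.d1 x).hasFDerivWithinAt) (fun x _ => t.nτ x) (mem_univ 0) (mem_univ q)
  simpa [t.z] using h

theorem Torus.fro_comp (t : Torus γ τ σ B) (q : V m) (A : D n →L[ℝ] V m) :
    fro ((τ q).comp A) = fro A := by
  simp only [fro, col, ContinuousLinearMap.comp_apply, t.iso]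

theorem quadT_le (hn : 2 ≤ n) (T : V m →L[ℝ] V m →L[ℝ] V M) (A : D n →L[ℝ] V m) :
    ‖quadT T A‖ ≤ n * ‖T‖ * fro A ^ n := by
  have h0 := fro_nonneg A
  have h1 : ‖∑ α, T (col A α) (col A α)‖ ≤ n * (‖T‖ * fro A * fro A) := by
    refine (norm_sum_le _ _).trans ((Finset.sum_le_card_nsmul _ _ (‖T‖ * fro A * fro A)
      fun α _ => (T.le_opNorm₂ _ _).trans ?_).trans (by simp))
    have := col_le_fro A α
    gcongr
  have h2 : fro A ^ n = fro A ^ (n - 2) * fro A * fro A := by
    rw [← pow_succ, ← pow_succ]; congr 1; omega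
  rw [quadT, norm_smul, Real.norm_of_nonneg (pow_nonneg h0 _), h2]
  calc _ ≤ fro A ^ (n - 2) * (n * (‖T‖ * fro A * fro A)) := by gcongr
    _ = _ := by ring

theorem continuous_quadT : Continuous fun p : (V m →L[ℝ] V m →L[ℝ] V M) × (D n →L[ℝ] V m) =>
    quadT p.1 p.2 := by
  unfold quadT
  exact ((continuous_fro.comp continuous_snd).pow _).smul (continuous_finsetSum _ fun α _ =>
    (continuous_fst.clm_apply ((continuous_col α).comp continuous_snd)).clm_apply
      ((continuous_col α).comp continuous_snd))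

theorem exists_adj (e : V M) : ∃ L : (V m →L[ℝ] V M) →L[ℝ] V m, ∀ T a, ⟪a, L T⟫ = ⟪T a, e⟫ :=
  ⟨LinearMap.toContinuousLinearMap
    { toFun := fun T => ContinuousLinearMap.adjoint T e
      map_add' := fun T T' => by simp
      map_smul' := fun c T => by simp }, fun T a => ContinuousLinearMap.adjoint_inner_right T a e⟩

/-- The lifted equation against a scalar function times a vector. -/
theorem Torus.test (t : Torus γ τ σ B) (hn : 2 ≤ n) {O : Set (D n)} {u : D n → V m}
    {A : D n → D n →L[ℝ] V m} {F : D n → V m} (S : GSol O u A F) {x0 : D n} {R : ℝ}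
    (hK : closedBall x0 R ⊆ O) (e : V M) {g : D n → ℝ} (g1 : ContDiff ℝ ∞ g)
    (g2 : HasCompactSupport g) (g3 : tsupport g ⊆ closedBall x0 R) :
    ∫ x, (pr ((τ (u x)).comp (A x)) ((fderiv ℝ g x).smulRight e) -
      ⟪τ (u x) (F x) - quadT (σ (u x)) (A x), g x • e⟫) = 0 := by
  obtain ⟨L, hL⟩ := exists_adj (m := m) e
  have d : ∀ q, HasFDerivAt (fun q => L (τ q)) (L.comp (σ q)) q := fun q =>
    L.hasFDerivAt.comp q (t.d2 q)
  have B1 := t.B1
  rw [← LY.test_comp hn S (Φ := fun q => L (τ q)) (B := ‖L‖ * B)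
    (contDiff_one_iff_hasFDerivAt.2 ⟨_, continuous_const.clm_comp t.cσ, d⟩)
    (fun q => (L.le_opNorm _).trans (by gcongr; exact (t.nτ q).trans B1))
    (fun q => by
      rw [(d q).fderiv]
      exact (L.opNorm_comp_le _).trans (by gcongr; exact t.bσ q)) hK g1 g2 g3]
  refine integral_congr_ae (ae_of_all _ fun x => ?_)
  simp only [(d _).fderiv, pr, t.fro_comp, quadT, col, ContinuousLinearMap.comp_apply,
    ContinuousLinearMap.smulRight_apply, inner_smul_right, hL, inner_sub_left, inner_smul_left,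
    sum_inner, conj_trivial]
  ring

theorem Torus.lift (t : Torus γ τ σ B) (hn : 2 ≤ n) {O : Set (D n)} {u : D n → V m}
    {A : D n → D n →L[ℝ] V m} {F : D n → V m} (S : GSol O u A F) {x0 : D n} {R : ℝ}
    (hK : closedBall x0 R ⊆ O) :
    GSol (ball x0 R) (fun x => γ (u x)) (fun x => (τ (u x)).comp (A x))
      fun x => τ (u x) (F x) - quadT (σ (u x)) (A x) := by
  have B1 := t.B1
  have h1 : (1 : ℝ≥0∞) ≤ n := by exact_mod_cast (by omega : 1 ≤ n)
  have sγ : ContDiff ℝ 1 γ := contDiff_one_iff_hasFDerivAt.2 ⟨_, t.cτ, t.d1⟩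
  have mτ : StronglyMeasurable fun x => τ (u x) := t.cτ.comp_stronglyMeasurable S.mu
  have mu : StronglyMeasurable fun x => γ (u x) := sγ.continuous.comp_stronglyMeasurable S.mu
  have mG : StronglyMeasurable fun x => (τ (u x)).comp (A x) := by
    have c : Continuous fun p : (V m →L[ℝ] V M) × (D n →L[ℝ] V m) => p.1.comp p.2 :=
      continuous_fst.clm_comp continuous_snd
    have h := c.comp_stronglyMeasurable (mτ.prodMk S.mG)
    exact h
  have mF : StronglyMeasurable fun x => τ (u x) (F x) - quadT (σ (u x)) (A x) := by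
    have c : Continuous fun p : (V m →L[ℝ] V M) × V m => p.1 p.2 :=
      continuous_fst.clm_apply continuous_snd
    have h := c.comp_stronglyMeasurable (mτ.prodMk S.mF)
    have h' := continuous_quadT.comp_stronglyMeasurable
      ((t.cσ.comp_stronglyMeasurable S.mu).prodMk S.mG)
    exact h.sub h'
  have lG : MemLp (fun x => (τ (u x)).comp (A x)) n volume :=
    S.lG.of_le mG.aestronglyMeasurable (ae_of_all _ fun x =>
      (ContinuousLinearMap.opNorm_comp_le _ _).trans
        (mul_le_of_le_one_left (norm_nonneg _) (t.nτ _)))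
  have lF : Integrable fun x => τ (u x) (F x) - quadT (σ (u x)) (A x) := by
    refine (S.lF.norm.add ((S.ifro hn).const_mul (n * B))).mono' mF.aestronglyMeasurable
      (ae_of_all _ fun x => (norm_sub_le _ _).trans (add_le_add (t.iso _ _).le
        ((quadT_le hn _ _).trans ?_)))
    exact mul_le_mul_of_nonneg_right (mul_le_mul_of_nonneg_left (t.bσ _) (Nat.cast_nonneg _))
      (pow_nonneg (fro_nonneg _) _)
  refine ⟨isOpen_ball, mu, mG, mF, S.lu.of_le mu.aestronglyMeasurable
    (ae_of_all _ fun x => t.nγ _), lG, lF, fun φ f1 f2 f3 v => ?_, fun φ f1 f2 f3 => ?_⟩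
  · obtain ⟨w, hw⟩ := S.apx hn hK
    have h := chain_weak hn (isCompact_closedBall x0 R) S.mG (S.lG.locallyIntegrable h1) hw sγ
      t.bγ (fun q => by rw [(t.d1 q).fderiv]; exact (t.nτ q).trans B1) (f1.of_le (by simp))
      (f3.trans ball_subset_closedBall) v
    simp only [(t.d1 _).fderiv] at h
    simp only [ContinuousLinearMap.comp_apply, h, neg_neg]
  · let π : Fin M → V M →L[ℝ] ℝ := fun j => EuclideanSpace.proj j
    let g : Fin M → D n → ℝ := fun j => π j ∘ φ
    let e : Fin M → V M := fun j => EuclideanSpace.single j 1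
    have g1 : ∀ j, ContDiff ℝ ∞ (g j) := fun j => (π j).contDiff.comp f1
    have g2 : ∀ j, HasCompactSupport (g j) := fun j => f2.comp_left (map_zero _)
    have g3 : ∀ j, tsupport (g j) ⊆ closedBall x0 R := fun j =>
      ((tsupport_comp_subset (map_zero (π j)) φ).trans f3).trans ball_subset_closedBall
    have dg : ∀ j x, fderiv ℝ (g j) x = (π j).comp (fderiv ℝ φ x) := fun j x =>
      ((π j).hasFDerivAt.comp x (f1.differentiable (by simp) x).hasFDerivAt).fderiv
    have hs : ∀ a b : V M, ∑ j, b j * ⟪a, e j⟫ = ⟪a, b⟫ := fun a b => by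
      simp [e, PiLp.inner_apply]
    have i1 : ∀ j, Integrable fun x => pr ((τ (u x)).comp (A x))
        ((fderiv ℝ (g j) x).smulRight (e j)) := fun j =>
      test_pr_int hn mG lG
        (((ContinuousLinearMap.smulRightL ℝ (D n) (V M)).flip (e j)).continuous.comp
          ((g1 j).continuous_fderiv (by simp)))
        (((g2 j).fderiv ℝ).comp_left
          (g := (ContinuousLinearMap.smulRightL ℝ (D n) (V M)).flip (e j)) (map_zero _))
    have i2 : ∀ j, Integrable fun x => ⟪τ (u x) (F x) - quadT (σ (u x)) (A x), g j x • e j⟫ :=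
      fun j => test_inner_int lF ((g1 j).continuous.smul continuous_const) (g2 j).smul_right
    calc _ = ∫ x, ∑ j, pr ((τ (u x)).comp (A x)) ((fderiv ℝ (g j) x).smulRight (e j)) := by
          refine integral_congr_ae (ae_of_all _ fun x => ?_)
          simp only [pr, col, dg, ContinuousLinearMap.smulRight_apply, inner_smul_right,
            ContinuousLinearMap.comp_apply, ← Finset.mul_sum]
          rw [Finset.sum_comm]
          exact congrArg _ (Finset.sum_congr rfl fun α _ => (hs _ _).symm)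
      _ = ∫ x, ∑ j, ⟪τ (u x) (F x) - quadT (σ (u x)) (A x), g j x • e j⟫ := by
          rw [integral_finsetSum _ fun j _ => i1 j, integral_finsetSum _ fun j _ => i2 j]
          refine Finset.sum_congr rfl fun j _ => ?_
          rw [← sub_eq_zero, ← integral_sub (i1 j) (i2 j)]
          exact t.test hn S hK (e j) (g1 j) (g2 j) (g3 j)
      _ = _ := by
          refine integral_congr_ae (ae_of_all _ fun x => ?_)
          simp only [inner_smul_right]
          exact hs _ _

end Pool.Agent.Lib.MP_a785f2_an.OM
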