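import Pool.Agent.Lib.MP_a785f2_an.LZ.Core
import Pool.Agent.Lib.MP_a785f2_an.LZ.Slc
import Pool.Agent.Lib.MP_a785f2_an.LZ.TrA
import Pool.Agent.Lib.MP_a785f2_an.LY.SphA

/-! A second map whose gradient is dominated by the gradient of the solution. -/

open MeasureTheory Metric Set Filter Topology
open scoped ContDiff RealInnerProductSpace ENNReal

namespace Pool.Agent.Lib.MP_a785f2_an.OM

open HS (V)
open LZ

variable {n m k : ℕ} {Ω : Set (E n)} {P : V m → Op m} {L : ℝ} {N : Rl n m} {u : E n → V m}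
  {G : E n → W n m} {f : E n → V m} {U : E n → V k} {H : E n → W n k}

/-- A Sobolev map, not necessarily bounded. -/
structure Aux (Ω : Set (E n)) (U : E n → V k) (H : E n → W n k) : Prop where
  mU : StronglyMeasurable U
  mH : StronglyMeasurable H
  lU : MemLp U n volume
  iH : Integrable (fun x => ‖H x‖ ^ n) volume
  apx : ∀ x0 R, closedBall x0 R ⊆ Ω → ∃ w : ℕ → E n → V k, (∀ j, ContDiff ℝ 1 (w j)) ∧
    Tendsto (fun j => ∫⁻ x in closedBall x0 R, ‖w j x - U x‖ₑ ^ n) atTop (𝓝 0) ∧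
    Tendsto (fun j => ∫⁻ x in closedBall x0 R, ‖grad (w j) x - H x‖ₑ ^ n) atTop (𝓝 0)

theorem dec (D : Dat Ω P L N u G f) : ∃ ϑ : ℝ, ϑ < 1 ∧ ∃ e0 : ℝ, 0 < e0 ∧ ∀ z r, 0 < r →
    closedBall z (4 * r) ⊆ Ω → en G (ball z (4 * r)) ≤ e0 →
      en G (ball z r) ≤ ϑ * en G (ball z (4 * r)) := by
  obtain ⟨θ, θ0, θ1, θ2⟩ := exists_theta (n := n) (by linarith [D.n3])
  obtain ⟨κ, hκ, C, hC, l0, h0, H⟩ := D.step
  have hθ : 0 < 1 - θ := sub_pos.2 θ1
  have hK : 0 ≤ C / (1 - θ) := by positivity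
  have e : ∀ l : ℝ, C * l ≤ C / (1 - θ) * (l - θ * l) := fun l => le_of_eq (by field_simp)
  obtain ⟨l1, h1, F⟩ := D.flux hκ hK h0 (D.iter hκ.le hK zero_le_one θ0 θ1.le θ2
    fun C0 A z r l c s1 T J mA c0 g hl h => H _ 0 C0 A z r l _ c s1 T J mA c0 hK (Or.inl rfl) g hl
      (mul_pos θ0 g.l0).le (e l) h)
  obtain ⟨C', hC', l2, h2, F2⟩ := D.cacc hκ hK (lt_min h0 (by positivity : 0 < l1 / 5))
    (D.iter hκ.le hK (by norm_num) θ0 θ1.le θ2
      fun C0 A z r l c s1 T J mA c0 g hl h => H _ (1 / 2) C0 A z r l _ c s1 T J mA c0 hK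
        (Or.inr ⟨rfl, F.mono (by linarith [hl.trans (min_le_right _ _)])⟩) g
        (hl.trans (min_le_left _ _)) (mul_pos θ0 g.l0).le (e l) h)
  obtain ⟨ϑ, -, a1, e0, a2, a3⟩ := D.decay hC' h2 F2
  exact ⟨ϑ, a1, e0, a2, a3⟩

theorem Aux.rep (a : Aux Ω U H) (D : Dat Ω P L N u G f) (hH : ∀ x, ‖H x‖ ≤ ‖G x‖) :
    Rep Ω U := by
  have hr : Module.finrank ℝ (E n) = n := finrank_euclideanSpace_fin
  have := D.mu_fin
  have hn : 1 ≤ n := le_trans (by norm_num) D.n3
  have := mu_atom (m := m) hn G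
  have := D.nontriv
  have hu : LocallyIntegrable U volume := a.lU.locallyIntegrable (by exact_mod_cast hn)
  obtain ⟨C, hC, H1⟩ := LY.exists_poin (F := V k) (volume : Measure (E n)) (by rwa [hr])
    zero_le_one
  have hP : LY.Poin volume (em G) Ω U C := by
    refine H1 (em G) Ω U (fun x => poL (H x)) hu
      (poL_cont.comp_stronglyMeasurable a.mH).aestronglyMeasurable (fun x t => ?_)
      fun x t _ hx => ?_
    · rw [hr, ENNReal.ofReal_one, one_mul, LZ.em, withDensity_apply _ measurableSet_ball]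
      refine lintegral_mono fun y => ?_
      rw [ENNReal.ofReal_pow (norm_nonneg _), ← ofReal_norm]
      exact pow_le_pow_left' (ENNReal.ofReal_le_ofReal ((poL_le _).trans (hH y))) n
    · obtain ⟨w, w1, w2, w3⟩ := a.apx x t hx
      rw [hr]
      refine ⟨w, w1, tendsto_of_tendsto_of_tendsto_of_le_of_le tendsto_const_nhds w2
        (fun _ => zero_le) fun _ => lintegral_mono_set ball_subset_closedBall,
        tendsto_of_tendsto_of_tendsto_of_le_of_le tendsto_const_nhds w3 (fun _ => zero_le)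
          fun k => le_trans (lintegral_mono fun y => ?_)
            (lintegral_mono_set ball_subset_closedBall)⟩
      rw [← poL_grad, ← poL_sub]
      exact pow_le_pow_left' (poL_ele _) n
  obtain ⟨ϑ, h1, e0, h2, h3⟩ := dec D
  obtain ⟨v, hv, e⟩ := hP.rep' (by linarith) hu D.op h2 h1 fun x r hr hs he => by
    rw [D.mu_real measurableSet_ball] at he
    rw [D.mu_real measurableSet_ball, D.mu_real measurableSet_ball]
    exact h3 x r hr hs he
  exact ⟨v, hv, (ae_restrict_iff' D.op.measurableSet).2 e⟩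

theorem exists_slice (hn : 3 ≤ n) (k : ℕ) : ∃ C : ℝ, 1 ≤ C ∧ ∀ (Ω : Set (E n)) (U : E n → V k)
    (H : E n → W n k), Aux Ω U H → ∀ c R, closedBall c R ⊆ Ω →
    ∀ᵐ s, s ∈ Ioo 0 R → Integrable (fun θ => ‖sl U c s θ - sy (sl U c s)‖ ^ 2) (sph n) ∧
      ∀ B : S n → ℝ, (∀ θ, 0 ≤ B θ) → Integrable (fun θ => B θ ^ 2) (sph n) →
        (∀ (θ : S n) (v : E n), ⟪(θ : E n), v⟫ = 0 → ‖rad (pp H c s θ) v‖ ≤ B θ * ‖v‖) →
        ∫ θ, ‖sl U c s θ - sy (sl U c s)‖ ^ 2 ∂sph n ≤ C * ∫ θ, B θ ^ 2 ∂sph n := by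
  have := sph_prob (n := n) (by omega)
  have : Nonempty (Fin n) := ⟨⟨0, by omega⟩⟩
  obtain ⟨C, hC, H1⟩ := LY.slice_poincare (X := E n) (F := V k) volume
    (by rwa [finrank_euclideanSpace_fin]) (sph n) rfl
  refine ⟨C, hC, fun Ω U H a c R hR => ?_⟩
  obtain ⟨w, hw, t1, t2⟩ := a.apx c R hR
  have : IsFiniteMeasure (volume.restrict (closedBall c R) : Measure (E n)) :=
    ⟨by rw [Measure.restrict_apply_univ]; exact measure_closedBall_lt_top⟩
  have s1 := LY.tendsto_pow_mono one_le_two (by omega : 2 ≤ n) t1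
  have s2 := LY.tendsto_pow_mono one_le_two (by omega : 2 ≤ n) t2
  have a1 : Tendsto (fun j => ∫⁻ x in ball c R, ‖w j x - U x‖ₑ ^ 2) atTop (𝓝 0) :=
    tendsto_of_tendsto_of_tendsto_of_le_of_le tendsto_const_nhds s1 (fun _ => zero_le)
      fun _ => lintegral_mono_set ball_subset_closedBall
  have a2 : Tendsto (fun j => ∫⁻ x in ball c R, ‖fderiv ℝ (w j) x - poL (H x)‖ₑ ^ 2) atTop
      (𝓝 0) := by
    refine tendsto_of_tendsto_of_tendsto_of_le_of_le tendsto_const_nhds s2 (fun _ => zero_le)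
      fun j => (lintegral_mono fun x => pow_le_pow_left' ?_ 2).trans
        (lintegral_mono_set ball_subset_closedBall)
    rw [← poL_grad, ← poL_sub]
    exact poL_ele _
  filter_upwards [H1 c R U (fun x => poL (H x)) w a.mU
    (poL_cont.comp_stronglyMeasurable a.mH) hw a1 a2,
    LY.ae_slice_integrable volume c (a.lU.integrable_norm_pow (by omega))] with s hs hi hm
  have mv := (sl_meas a.mU c s).aestronglyMeasurable (μ := sph n)
  have i0 : Integrable (fun θ => ‖sl U c s θ‖ ^ n) (sph n) := int_sph (by omega) (hi hm.1)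
  have i2 := LY.integrable_pow_le mv.norm (fun _ => norm_nonneg _) (by omega : 2 ≤ n) i0
  have i1 := LY.integrable_pow_le mv.norm (fun _ => norm_nonneg _) (by omega : 1 ≤ n) i0
  refine ⟨((i2.const_mul 2).add (integrable_const (2 * ‖sy (sl U c s)‖ ^ 2))).mono'
    ((mv.sub aestronglyMeasurable_const).norm.pow 2) (ae_of_all _ fun θ => ?_),
    fun B B0 iB hB => hs hm (i1.mono' mv (ae_of_all _ fun θ => (pow_one _).ge)) B B0 iB
      fun θ v hv => ?_⟩
  · have h1 := pow_le_pow_left₀ (norm_nonneg _) (norm_sub_le (sl U c s θ) (sy (sl U c s))) 2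
    rw [Real.norm_of_nonneg (sq_nonneg _), Pi.add_apply]
    nlinarith [sq_nonneg (‖sl U c s θ‖ - ‖sy (sl U c s)‖)]
  · rw [poL_apply, ← rad_smul]
    exact hB θ v hv

theorem aux_of (hn : 2 ≤ n) {O : Set (HS.D n)} {v : HS.D n → V k}
    {A : HS.D n → HS.D n →L[ℝ] V k} {F : HS.D n → V k} (s : NH.GSol O v A F) {B : Set (E n)}
    (mB : MeasurableSet B) (aeB : ∀ᵐ x, eD n x ∈ O → x ∈ B) :
    Aux (eD n ⁻¹' O) (fun x => v (eD n x)) (B.indicator fun x => cols (A (eD n x))) := by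
  have me : Measurable (eD n) := (eD n).continuous.measurable
  have mG := (continuous_cols.comp_stronglyMeasurable (s.mG.comp_measurable me)).indicator mB
  refine ⟨s.mu.comp_measurable me, mG, s.lu.comp_measurePreserving eD_mp, ?_, fun x0 R hR => ?_⟩
  · refine (eD_mp.integrable_comp_of_integrable (NH.int_fro_pow (by omega) s.lG)).mono'
      (mG.norm.pow n).aestronglyMeasurable (ae_of_all _ fun x => ?_)
    rw [Real.norm_of_nonneg (by positivity)]
    by_cases k : x ∈ B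
    · rw [indicator_of_mem k, norm_cols]; rfl
    · rw [indicator_of_notMem k, norm_zero, zero_pow (by omega)]
      exact pow_nonneg (HS.fro_nonneg _) _
  have hc : IsCompact (eD n '' closedBall x0 R) :=
    (isCompact_closedBall x0 R).image (eD n).continuous
  obtain ⟨w, hw⟩ := apx_cpt hn s hc (image_subset_iff.2 hR)
  have e1 : eD n ⁻¹' (eD n '' closedBall x0 R) = closedBall x0 R :=
    preimage_image_eq _ (eD n).injective
  have a1 : ∀ᵐ x ∂(volume.restrict (closedBall x0 R)), x ∈ B :=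
    (ae_restrict_iff' measurableSet_closedBall).2 (aeB.mono fun x k1 k2 => k1 (hR k2))
  have key : ∀ {φ : E n → ℝ≥0∞} {ψ : HS.D n → ℝ≥0∞}, (∀ x ∈ B, φ x ≤ ψ (eD n x)) →
      ∫⁻ x in closedBall x0 R, φ x ≤ ∫⁻ y in eD n '' closedBall x0 R, ψ y := fun {φ ψ} k => by
    rw [← eD_mp.setLIntegral_comp_preimage_emb eD_emb, e1]
    exact lintegral_mono_ae (a1.mono k)
  refine ⟨fun j x => w j (eD n x), fun j => ((hw.sm j).of_le (by simp)).comp (eD n).contDiff,
    tendsto_of_tendsto_of_tendsto_of_le_of_le tendsto_const_nhds hw.lu (fun _ => zero_le)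
      fun j => key fun x _ => le_rfl, ?_⟩
  have h4 := ENNReal.Tendsto.const_mul (a := (n : ℝ≥0∞) ^ n) hw.lG
    (Or.inr (ENNReal.pow_ne_top (ENNReal.natCast_ne_top n)))
  rw [mul_zero] at h4
  refine tendsto_of_tendsto_of_tendsto_of_le_of_le tendsto_const_nhds h4 (fun _ => zero_le)
    fun j => ?_
  beta_reduce
  rw [← lintegral_const_mul' _ _ (ENNReal.pow_ne_top (ENNReal.natCast_ne_top n))]
  refine key fun x hx => ?_
  rw [grad_comp ((hw.sm j).differentiable (by simp)), indicator_of_mem hx, ← cols_sub, ← mul_pow]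
  refine pow_le_pow_left' ?_ n
  rw [← ofReal_norm, ← ofReal_norm, norm_cols, ← ENNReal.ofReal_natCast,
    ← ENNReal.ofReal_mul (Nat.cast_nonneg _)]
  exact ENNReal.ofReal_le_ofReal (HS.fro_le_norm _)

end Pool.Agent.Lib.MP_a785f2_an.OM
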