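import Pool.Agent.Lib.MP_a785f2_an.OM.Defs

/-! The product of circles. -/

open MeasureTheory Metric Set Filter Topology
open scoped ContDiff RealInnerProductSpace ENNReal

namespace Pool.Agent.Lib.MP_a785f2_an.OM

open HS NH

section
variable {Y : Type} [NormedAddCommGroup Y] [InnerProductSpace ℝ Y]

/-- The circle spanned by `a` and `b`. -/
noncomputable def cir (a b : Y) (t : ℝ) : Y := Real.cos t • a + Real.sin t • b

theorem cir_deriv (a b : Y) (t : ℝ) : HasDerivAt (cir a b) (cir b (-a) t) t := by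
  refine (((Real.hasDerivAt_cos t).smul_const a).add
    ((Real.hasDerivAt_sin t).smul_const b)).congr_deriv ?_
  rw [cir, neg_smul, smul_neg, add_comm]

theorem cir_le {a b : Y} (ha : ‖a‖ = 1) (hb : ‖b‖ = 1) (t : ℝ) : ‖cir a b t‖ ≤ 2 := by
  refine (norm_add_le _ _).trans ?_
  rw [norm_smul, norm_smul, ha, hb, Real.norm_eq_abs, Real.norm_eq_abs]
  linarith [Real.abs_cos_le_one t, Real.abs_sin_le_one t]

theorem cir_lip {a b : Y} (ha : ‖a‖ = 1) (hb : ‖b‖ = 1) (s t : ℝ) :
    ‖cir a b s - cir a b t‖ ≤ 2 * ‖s - t‖ :=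
  convex_univ.norm_image_sub_le_of_norm_hasDerivWithin_le
    (fun x _ => (cir_deriv a b x).hasDerivWithinAt)
    (fun x _ => cir_le hb (by rw [norm_neg, ha]) x) (mem_univ t) (mem_univ s)

end

theorem exists_torus (m : ℕ) : ∃ (γ : V m → V (m + m)) (τ : V m → V m →L[ℝ] V (m + m))
    (σ : V m → V m →L[ℝ] V m →L[ℝ] V (m + m)) (B : ℝ), Torus γ τ σ B := by
  set a : Fin m → V (m + m) := fun i => EuclideanSpace.single (Fin.castAdd m i) 1 with ha
  set b : Fin m → V (m + m) := fun i => EuclideanSpace.single (Fin.natAdd m i) 1 with hb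
  set p : Fin m → V m →L[ℝ] ℝ := fun i => EuclideanSpace.proj i with hp
  have na : ∀ i, ‖a i‖ = 1 := fun i => by simp [ha]
  have nb : ∀ i, ‖b i‖ = 1 := fun i => by simp [hb]
  have na' : ∀ i, ‖-a i‖ = 1 := fun i => by rw [norm_neg, na]
  have nb' : ∀ i, ‖-b i‖ = 1 := fun i => by rw [norm_neg, nb]
  have pe : ∀ i (e : V m), ‖p i e‖ ≤ ‖e‖ := fun i e => PiLp.norm_apply_le e i
  have aa : ∀ i j, ⟪a i, a j⟫ = if i = j then 1 else 0 := fun i j => by
    simp [ha, EuclideanSpace.inner_single_left]
  have bb : ∀ i j, ⟪b i, b j⟫ = if i = j then 1 else 0 := fun i j => by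
    simp [hb, EuclideanSpace.inner_single_left]
  have ab : ∀ i j, ⟪a i, b j⟫ = 0 := fun i j => by
    have : Fin.castAdd m i ≠ Fin.natAdd m j := fun h => by
      have := congrArg Fin.val h
      simp only [Fin.val_castAdd, Fin.val_natAdd] at this
      omega
    simp only [ha, hb, EuclideanSpace.inner_single_left, PiLp.single_apply, if_neg this, mul_zero]
  have ba : ∀ i j, ⟪b i, a j⟫ = 0 := fun i j => by rw [real_inner_comm, ab]
  have hd : ∀ (x y : V (m + m)) i q, HasFDerivAt (fun q => cir x y (p i q))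
      ((p i).smulRight (cir y (-x) (p i q))) q := fun x y i q =>
    ((cir_deriv x y (p i q)).hasFDerivAt.comp q (p i).hasFDerivAt).congr_fderiv (by ext1; simp)
  have sm : ∀ (y : Fin m → V (m + m)) (C : ℝ), 0 ≤ C → (∀ i, ‖y i‖ ≤ C) →
      ‖∑ i, (p i).smulRight ((p i).smulRight (y i))‖ ≤ m * C := fun y C hC h => by
    refine ContinuousLinearMap.opNorm_le_bound₂ _ (by positivity) fun e e' => ?_
    simp only [sum_apply, ContinuousLinearMap.smulRight_apply, smul_apply]
    refine (norm_sum_le_of_le (n := fun _ => ‖e‖ * (‖e'‖ * C)) _ fun i _ => ?_).trans_eq ?_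
    · rw [norm_smul, norm_smul]
      gcongr
      exacts [pe i e, pe i e', h i]
    · simp only [Finset.sum_const, Finset.card_fin, nsmul_eq_mul]; ring
  have hm : (0 : ℝ) ≤ m := Nat.cast_nonneg m
  refine ⟨fun q => ∑ i, (cir (a i) (b i) (p i q) - a i),
    fun q => ∑ i, (p i).smulRight (cir (b i) (-a i) (p i q)),
    fun q => ∑ i, (p i).smulRight ((p i).smulRight (cir (-a i) (-b i) (p i q))), 3 * m + 1,
    by linarith, by simp [cir], fun q => HasFDerivAt.fun_sum fun i _ => (hd _ _ i q).sub_const _,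
    fun q => HasFDerivAt.fun_sum fun i _ => ?_, fun q => ?_, fun q e => ?_, fun q => ?_,
    fun q q' => ?_, fun q x y z => ?_⟩
  · exact ((ContinuousLinearMap.smulRightL ℝ (V m) (V (m + m)) (p i)).hasFDerivAt.comp q
      (hd _ _ i q)).congr_fderiv (by ext1; ext1; simp [smul_smul])
  · refine (norm_sum_le_of_le (n := fun _ => 3) _ fun i _ => (norm_sub_le _ _).trans ?_).trans ?_
    · linarith [cir_le (na i) (nb i) (p i q), na i]
    · simp only [Finset.sum_const, Finset.card_fin, nsmul_eq_mul]; linarith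
  · have ho : Orthonormal ℝ fun i => cir (b i) (-a i) (p i q) := orthonormal_iff_ite.2 fun i j => by
      simp only [cir, inner_add_left, inner_add_right, real_inner_smul_left,
        real_inner_smul_right, inner_neg_left, inner_neg_right, aa, bb, ab, ba]
      split_ifs with h
      · subst h; nlinarith [Real.sin_sq_add_cos_sq (p i q)]
      · ring
    refine (sq_eq_sq₀ (norm_nonneg _) (norm_nonneg _)).1 ?_
    simp only [sum_apply, ContinuousLinearMap.smulRight_apply]
    rw [← real_inner_self_eq_norm_sq, ho.inner_sum, EuclideanSpace.real_norm_sq_eq]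
    simp [hp, sq]
  · exact (sm _ 2 zero_le_two fun i => cir_le (na' i) (nb' i) _).trans (by linarith)
  · have e : ∀ x y : Fin m → V (m + m), ∑ i, (p i).smulRight ((p i).smulRight (x i)) -
        ∑ i, (p i).smulRight ((p i).smulRight (y i)) =
        ∑ i, (p i).smulRight ((p i).smulRight (x i - y i)) := fun x y => by
      ext1; ext1; simp [smul_sub]
    rw [e]
    refine (sm _ (2 * ‖q - q'‖) (by positivity) fun i =>
      (cir_lip (na' i) (nb' i) _ _).trans ?_).trans (by nlinarith [norm_nonneg (q - q')])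
    rw [← map_sub]
    linarith [pe i (q - q')]
  · simp only [sum_apply, ContinuousLinearMap.smulRight_apply, smul_apply, sum_inner, inner_sum]
    refine Finset.sum_eq_zero fun i _ => Finset.sum_eq_zero fun j _ => ?_
    simp only [cir, inner_add_left, inner_add_right, real_inner_smul_left,
      real_inner_smul_right, inner_neg_left, inner_neg_right, aa, bb, ab, ba]
    split_ifs with h
    · subst h; ring
    · ring

end Pool.Agent.Lib.MP_a785f2_an.OM
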