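import Pool.Agent.Lib.MP_a785f2_an.OM.Rel
import Pool.Agent.Lib.MP_a785f2_an.OM.Sec
import Pool.Agent.Lib.MP_a785f2_an.OM.Tor
import Pool.Agent.Lib.MP_a785f2_an.OM.Form
import Pool.Agent.Lib.MP_a785f2_an.OM.Lift
import Pool.Agent.Lib.MP_a785f2_an.LZ.TrM

/-! The continuity theorem for Lipschitz forms, internal version. -/

open MeasureTheory Metric Set Filter Topology
open scoped ContDiff RealInnerProductSpace ENNReal

namespace Pool.Agent.Lib.MP_a785f2_an.OM

open HS (V)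
open LZ

variable {n m M : ℕ} {L : ℝ}

section iso

variable {τ : V m →L[ℝ] V M} (hτ : ∀ e, ‖τ e‖ = ‖e‖)
include hτ

theorem adj_le (w : V M) : ‖ContinuousLinearMap.adjoint τ w‖ ≤ ‖w‖ := by
  have h1 : ‖ContinuousLinearMap.adjoint τ w‖ * ‖ContinuousLinearMap.adjoint τ w‖ ≤
      ‖w‖ * ‖ContinuousLinearMap.adjoint τ w‖ := by
    rw [← real_inner_self_eq_norm_mul_norm, ContinuousLinearMap.adjoint_inner_left]
    exact (real_inner_le_norm _ _).trans (by rw [hτ])
  rcases (norm_nonneg (ContinuousLinearMap.adjoint τ w)).eq_or_lt with h | h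
  · rw [← h]; exact norm_nonneg _
  · exact le_of_mul_le_mul_right h1 h

theorem adj_iso (e : V m) : ContinuousLinearMap.adjoint τ (τ e) = e := by
  refine ext_inner_right ℝ fun v => ?_
  rw [ContinuousLinearMap.adjoint_inner_left]
  exact (LinearIsometry.mk τ.toLinearMap hτ).inner_map_map e v

theorem norm_cols_iso (A : HS.D n →L[ℝ] V m) : ‖cols (τ.comp A)‖ = ‖cols A‖ := by
  rw [PiLp.norm_eq_of_L2, PiLp.norm_eq_of_L2]
  exact congrArg _ (Finset.sum_congr rfl fun α _ => congrArg (· ^ 2) (hτ _))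

theorem norm_rad_iso (A : HS.D n →L[ℝ] V m) (v : E n) :
    ‖rad (cols (τ.comp A)) v‖ = ‖rad (cols A) v‖ := by
  rw [← hτ (rad (cols A) v)]
  simp only [rad, map_sum, map_smul]
  rfl

theorem exc_iso (A : HS.D n →L[ℝ] V m) (t : ℝ) (a : V M) (θ : E n) :
    ‖t • cols A - ten (ContinuousLinearMap.adjoint τ a) θ‖ ≤ ‖t • cols (τ.comp A) - ten a θ‖ := by
  rw [PiLp.norm_eq_of_L2, PiLp.norm_eq_of_L2]
  refine Real.sqrt_le_sqrt (Finset.sum_le_sum fun α _ => pow_le_pow_left₀ (norm_nonneg _) ?_ 2)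
  refine le_trans (le_of_eq ?_) (adj_le hτ _)
  change ‖t • HS.col A α - θ α • ContinuousLinearMap.adjoint τ a‖ =
    ‖ContinuousLinearMap.adjoint τ (t • τ (HS.col A α) - θ α • a)‖
  rw [map_sub, map_smul, map_smul, adj_iso hτ]

/-- The remainder of the lifted equation is quadratic in the distance to rank one. -/
theorem rem_le (hn : 3 ≤ n) (L0 : 0 ≤ L) {T : Bi m} {T' : Bi M} {σ : V m →L[ℝ] V m →L[ℝ] V M}
    (e : ∀ b c, T' (τ b) (τ c) = σ b c - τ (T b c)) {A : HS.D n →L[ℝ] V m} {F : V m}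
    (h : ‖F - quadT T A‖ ≤ L * HS.jac A) {t : ℝ} (ht : 0 < t) (a : V M) {θ : E n} (hθ : ‖θ‖ = 1) :
    ‖-(t ^ n • (τ F - quadT σ A)) - tor T' (t • cols (τ.comp A))‖ ≤
      L * ((m : ℝ) ^ n * n.factorial * 2 ^ n) * (‖a‖ ^ (n - 2) *
        ‖t • cols (τ.comp A) - ten a θ‖ ^ 2 + ‖t • cols (τ.comp A) - ten a θ‖ ^ n) := by
  have e1 : tor T' (cols (τ.comp A)) = quadT σ A - τ (quadT T A) := by
    have e2 : ∀ α, (cols (τ.comp A) : W n M) α = τ (HS.col A α) := fun _ => rfl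
    rw [tor, norm_cols_iso hτ, norm_cols]
    simp only [e2, e, quadT, map_smul, map_sum, Finset.sum_sub_distrib, smul_sub]
  have e3 : -(t ^ n • (τ F - quadT σ A)) - tor T' (t • cols (τ.comp A)) =
      -(t ^ n • τ (F - quadT T A)) := by
    rw [tor_smul (by omega) _ ht.le, e1, map_sub, smul_sub, smul_sub, smul_sub]
    abel
  have h1 := jac_exc hn (t • cols A) (ContinuousLinearMap.adjoint τ a) hθ
  have e4 : ∑ I : Fin n → Fin m, |(Matrix.of fun b j => (t • cols A) j (I b)).det| =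
      t ^ n * HS.jac A := by
    rw [HS.jac, Finset.mul_sum]
    refine Finset.sum_congr rfl fun I _ => ?_
    have e2 : (Matrix.of fun b j => (t • cols A) j (I b)) = t • HS.mat A I := rfl
    rw [e2, Matrix.det_smul, Fintype.card_fin, abs_mul, abs_of_pos (pow_pos ht n)]
  have h2 := adj_le hτ a
  have h3 := exc_iso hτ A t a θ
  rw [e4] at h1
  rw [e3, norm_neg, norm_smul, Real.norm_of_nonneg (pow_pos ht n).le, hτ, mul_assoc L]
  calc _ ≤ t ^ n * (L * HS.jac A) := mul_le_mul_of_nonneg_left h (pow_pos ht n).le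
    _ = L * (t ^ n * HS.jac A) := by ring
    _ ≤ _ := mul_le_mul_of_nonneg_left (h1.trans (by gcongr)) L0

end iso

theorem core_loc (hn : 3 ≤ n) {T : V m → Bi m} (a : Anti T L) {O : Set (HS.D n)}
    {u : HS.D n → V m} {A : HS.D n → HS.D n →L[ℝ] V m} {F : HS.D n → V m} (s : NH.GSol O u A F)
    (h : ∀ᵐ x, x ∈ O → ‖F x - quadT (T (u x)) (A x)‖ ≤ L * HS.jac (A x)) {x0 : HS.D n} {R : ℝ}
    (hK : closedBall x0 R ⊆ O) : NH.Rep (ball x0 R) u := by
  have n2 : 2 ≤ n := by omega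
  have := sph_prob (n := n) (by omega)
  have : Nonempty (Fin n) := ⟨⟨0, by omega⟩⟩
  obtain ⟨γ, τ, σ, B, t⟩ := exists_torus m
  obtain ⟨T', L', a', e'⟩ := t.form a
  obtain ⟨C, C1, hC⟩ := exists_slice hn m
  have s1 := t.lift n2 s hK
  have hO : ball x0 R ⊆ O := ball_subset_closedBall.trans hK
  have s0 : NH.GSol (ball x0 R) u A F := ⟨isOpen_ball, s.mu, s.mG, s.mF, s.lu, s.lG, s.lF,
    fun φ p1 p2 p3 => s.wk φ p1 p2 (p3.trans hO), fun φ p1 p2 p3 => s.eq φ p1 p2 (p3.trans hO)⟩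
  have L0 : 0 ≤ L := zero_le_one.trans a.L1
  have L1 := a'.L1
  have B1 := t.B1
  obtain ⟨K, hK'⟩ : ∃ K : ℝ, K = L * ((m : ℝ) ^ n * n.factorial * 2 ^ n) := ⟨_, rfl⟩
  have K0 : 0 ≤ K := by rw [hK']; positivity
  have p0 : 0 ≤ L' ^ 2 * C := by positivity
  obtain ⟨Λ, hΛ⟩ : ∃ Λ : ℝ, Λ = B + 2 * L' + K + L' ^ 2 * C := ⟨_, rfl⟩
  have g : Geo (fun _ : V (m + m) => (1 : Op (m + m))) Λ :=
    ⟨by linarith, contDiff_const, fun _ => ContinuousLinearMap.norm_id_le.trans (by linarith),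
      fun _ => ContinuousLinearMap.opNorm_le_bound _ (by linarith) fun v => by
        rw [fderiv_fun_const, Pi.zero_apply, zero_apply, norm_zero]
        exact mul_nonneg (by linarith) (norm_nonneg _), fun _ _ _ => rfl⟩
  have z : ∀ q (p : W n (m + m)), al (fun _ : V (m + m) => (1 : Op (m + m))) q p = 0 :=
    fun q p => by simp [al]
  have z1 : ∀ θ : E n, (ten (0 : V (m + m)) θ : W n (m + m)) = 0 := fun θ => by
    ext1 α; simp [ten]
  have key : ∀ (q : V (m + m)) (p : W n (m + m)) (φ : V (m + m)), (∀ (b : V (m + m)) (θ : E n),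
      ‖θ‖ = 1 → ‖φ‖ ≤ K * (‖b‖ ^ (n - 2) * ‖p - ten b θ‖ ^ 2 + ‖p - ten b θ‖ ^ n)) →
      ‖φ‖ ≤ K * ‖p‖ ^ n ∧ PtM (fun _ => 1) Λ univ q p φ := fun q p φ k => by
    refine ⟨?_, mem_univ _, fun _ => rfl, by rw [z, map_zero], fun b θ hθ => ?_⟩
    · have k1 := k 0 (EuclideanSpace.single ⟨0, by omega⟩ 1) (by simp)
      rwa [norm_zero, zero_pow (by omega), zero_mul, zero_add, z1, sub_zero] at k1
    · rw [z, sub_zero]
      exact (k b θ hθ).trans (mul_le_mul_of_nonneg_right (by linarith) (by positivity))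
  have pt : ∀ x, ‖F x - quadT (T (u x)) (A x)‖ ≤ L * HS.jac (A x) → ∀ r : ℝ, 0 < r → _ :=
    fun x hx r hr => key (γ (u x)) _ _ fun b θ hθ =>
      hK' ▸ rem_le (t.iso (u x)) hn L0 (e' (u x)) hx hr b hθ
  obtain ⟨v, G, f, Y, mY, a1, a2, a3, a4⟩ := dat_gen hn g (q0 := 0)
    (norm_zero.le.trans (by linarith)) s1 (h.mono fun x k1 k2 => k1 (hO k2)) fun x hx => by
      refine ⟨(t.bγ _).trans (by linarith), ?_⟩
      have k1 := (pt x hx 1 one_pos).1
      have k2 := (tor_le n2 (T' (u x)) (cols ((τ (u x)).comp (A x)))).trans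
        (mul_le_mul_of_nonneg_right (a'.bd _) (by positivity))
      rw [one_pow, one_smul, one_smul] at k1
      have k3 := norm_le_norm_sub_add (-(τ (u x) (F x) - quadT (σ (u x)) (A x)))
        (tor (T' (u x)) (cols ((τ (u x)).comp (A x))))
      rw [norm_neg] at k3
      refine (k3.trans (add_le_add k1 k2)).trans ?_
      rw [← add_mul]
      exact mul_le_mul_of_nonneg_right (by linarith) (by positivity)
  have aeY : ∀ᵐ x, eD n x ∈ ball x0 R → x ∈ Y := eD_mp.quasiMeasurePreserving.ae a1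
  have b0 := aux_of n2 s0 mY aeY
  have b1 := aux_of n2 s1 mY aeY
  have eG : (Y.indicator fun x => cols ((τ (u (eD n x))).comp (A (eD n x)))) = G :=
    funext fun x => by
      by_cases k : x ∈ Y
      · rw [indicator_of_mem k]; exact (a2 x k).2.2.1.symm
      · rw [indicator_of_notMem k]; exact (a3 x k).2.1.symm
  rw [eG] at b1
  have hH : ∀ x, ‖Y.indicator (fun x => cols (A (eD n x))) x‖ ≤ ‖G x‖ ∧
      ∀ w, ‖rad (Y.indicator (fun x => cols (A (eD n x))) x) w‖ = ‖rad (G x) w‖ := fun x => by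
    rw [← eG]
    by_cases k : x ∈ Y
    · rw [indicator_of_mem k, indicator_of_mem k]
      exact ⟨(norm_cols_iso (t.iso _) _).ge, fun w => (norm_rad_iso (t.iso _) _ w).symm⟩
    · rw [indicator_of_notMem k, indicator_of_notMem k]
      exact ⟨by simp, fun w => by simp [rad]⟩
  have cT : Continuous T' := (LipschitzWith.of_dist_le' (K := L') fun q q' => by
    rw [dist_eq_norm (T' q), dist_eq_norm q]; exact a'.lip q q').continuous
  refine rep_of (b0.rep (a4 (RlT (fun _ => 1) Λ univ) (sphOK_T hn g fun q _ q' _ ν k => ?_)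
    fun c r hr => ?_) fun x => (hH x).1) isOpen_ball (ae_of_all _ fun _ _ => rfl)
  · rw [show ν = 0 from k]; simp
  filter_upwards [hC _ _ _ b0 c r hr, LY.ae_slice_integrable volume c b1.iH] with ρ k1 k2 hρ
  obtain ⟨U, hU⟩ : ∃ U : S n → V m, U = sl (fun x => u (eD n x)) c ρ := ⟨_, rfl⟩
  have mU : StronglyMeasurable U := hU ▸ sl_meas b0.mU c ρ
  obtain ⟨k3, k4⟩ := k1 hρ
  rw [← hU] at k3 k4
  refine ⟨fun θ => T' (U θ), T' (sy U), fun θ => min Λ (L' * ‖U θ - sy U‖),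
    cT.comp_stronglyMeasurable mU, (measurable_const.min (((mU.sub
      stronglyMeasurable_const).norm.measurable).const_mul L')).stronglyMeasurable,
    fun θ => ⟨(a'.bd _).trans (by linarith), a'.anti _, le_min ?_ (a'.lip _ _), min_le_left _ _,
      ?_⟩, fun b => ?_⟩
  · have := norm_sub_le (T' (U θ)) (T' (sy U))
    linarith [a'.bd (U θ), a'.bd (sy U)]
  · have k5 : ‖ph f c ρ θ - tor (T' (U θ)) (pp G c ρ θ)‖ ≤ K * ‖pp G c ρ θ‖ ^ n ∧
        PtM (fun _ => 1) Λ univ (sl v c ρ θ) (pp G c ρ θ)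
          (ph f c ρ θ - tor (T' (U θ)) (pp G c ρ θ)) := by
      by_cases hx : c + ρ • (θ : E n) ∈ Y
      · obtain ⟨c1, c2, c3, c4⟩ := a2 _ hx
        simp only [hU, sl, pp, ph, c2, c3, c4]
        exact pt _ c1 ρ hρ.1
      · obtain ⟨c2, c3, c4⟩ := a3 _ hx
        refine key _ _ _ fun b θ' _ => ?_
        simp only [pp, ph, c3, c4, smul_zero, neg_zero, tor, PiLp.zero_apply, map_zero,
          Finset.sum_const_zero, sub_zero, norm_zero]
        positivity
    exact ⟨k5.1.trans (mul_le_mul_of_nonneg_right (by linarith) (by positivity)), k5.2⟩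
  · have i0 : Integrable (fun θ => ‖pp G c ρ θ‖ ^ n) (sph n) := by
      simp only [pp, norm_smul, mul_pow]
      exact (int_sph (by omega) (k2 hρ.1)).const_mul _
    have i2 := slc_int n2 (pp_meas b1.mH c ρ) i0 b
    obtain ⟨D, hD⟩ : ∃ D : S n → ℝ, ∀ θ, ‖pp G c ρ θ - ten b θ‖ = D θ := ⟨_, fun _ => rfl⟩
    simp only [hD] at i2 ⊢
    have k5 := k4 D (fun θ => hD θ ▸ norm_nonneg _) i2 fun θ w hw => by
      rw [← hD]
      refine le_trans (le_of_eq ?_) (slc_tang (pp G c ρ θ) b hw)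
      rw [pp, pp, rad_smul, rad_smul, norm_smul, norm_smul, (hH _).2]
    have d0 : 0 ≤ ∫ θ, D θ ^ 2 ∂sph n := integral_nonneg fun _ => sq_nonneg _
    calc _ ≤ ∫ θ, L' ^ 2 * ‖U θ - sy U‖ ^ 2 ∂sph n := by
          refine integral_mono_of_nonneg (ae_of_all _ fun _ => sq_nonneg _) (k3.const_mul _)
            (ae_of_all _ fun θ => ?_)
          beta_reduce
          rw [← mul_pow]
          exact pow_le_pow_left₀ (le_min (by linarith) (by positivity)) (min_le_right _ _) 2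
      _ ≤ L' ^ 2 * (C * ∫ θ, D θ ^ 2 ∂sph n) := by
          rw [integral_const_mul]; gcongr
      _ ≤ _ := by rw [← mul_assoc]; gcongr; linarith

theorem coreT (hn : 3 ≤ n) : CoreT n := by
  intro m T L O u A F a s h
  obtain ⟨v, h1, h2⟩ := LY.rep_osc (ν := volume) (Ω := O) (u := u) fun x0 hx γ hγ => by
    obtain ⟨R, hR, hK⟩ := nhds_basis_closedBall.mem_iff.1 (s.op.mem_nhds hx)
    obtain ⟨w, k1, k2⟩ := core_loc hn a s h hK
    obtain ⟨r, hr, k3⟩ := Metric.continuousAt_iff.1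
      (k1.continuousAt (ball_mem_nhds x0 hR)) γ hγ
    refine ⟨min r R, lt_min hr hR, w x0, ?_⟩
    filter_upwards [(ae_restrict_iff' measurableSet_ball).1 k2] with x k4 k5
    rw [k4 (ball_subset_ball (min_le_right _ _) k5), ← dist_eq_norm]
    exact (k3 (ball_subset_ball (min_le_left _ _) k5)).le
  exact ⟨v, h1, (ae_restrict_iff' s.op.measurableSet).2 h2⟩

end Pool.Agent.Lib.MP_a785f2_an.OM
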