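import Pool.Agent.Lib.MP_a785f2_an.NH.Sob

/-! Vocabulary for potentials that are pulled back from a Lipschitz form on the target. -/

open MeasureTheory Metric Set Filter Topology
open scoped ContDiff RealInnerProductSpace ENNReal

namespace Pool.Agent.Lib.MP_a785f2_an.OM

open HS NH

/-- Bilinear maps on the target space. -/
abbrev Bi (m : ℕ) : Type := V m →L[ℝ] V m →L[ℝ] V m

variable {n m M : ℕ}

/-- A bounded Lipschitz field of bilinear maps that are antisymmetric in the last slot. -/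
structure Anti (T : V m → Bi M) (L : ℝ) : Prop where
  L1 : 1 ≤ L
  bd : ∀ q, ‖T q‖ ≤ L
  lip : ∀ q q', ‖T q - T q'‖ ≤ L * ‖q - q'‖
  anti : ∀ q a b, ⟪T q a b, b⟫ = 0

/-- A bounded isometric immersion `γ` with derivatives `τ` and `σ`. -/
structure Torus (γ : V m → V M) (τ : V m → V m →L[ℝ] V M) (σ : V m → V m →L[ℝ] V m →L[ℝ] V M)
    (B : ℝ) : Prop where
  B1 : 1 ≤ B
  z : γ 0 = 0
  d1 : ∀ q, HasFDerivAt γ (τ q) q
  d2 : ∀ q, HasFDerivAt τ (σ q) q
  bγ : ∀ q, ‖γ q‖ ≤ B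
  iso : ∀ q e, ‖τ q e‖ = ‖e‖
  bσ : ∀ q, ‖σ q‖ ≤ B
  lσ : ∀ q q', ‖σ q - σ q'‖ ≤ B * ‖q - q'‖
  nor : ∀ q a b c, ⟪σ q a b, τ q c⟫ = 0

/-- The quadratic term built from a bilinear map. -/
noncomputable def quadT (T : V m →L[ℝ] V m →L[ℝ] V M) (A : D n →L[ℝ] V m) : V M :=
  fro A ^ (n - 2) • ∑ α, T (col A α) (col A α)

/-- The internal continuity theorem in dimension `n`, as a property. -/
def CoreT (n : ℕ) : Prop :=
  ∀ (m : ℕ) (T : V m → Bi m) (L : ℝ) (O : Set (D n)) (u : D n → V m)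
    (A : D n → D n →L[ℝ] V m) (F : D n → V m), Anti T L → GSol O u A F →
    (∀ᵐ x, x ∈ O → ‖F x - quadT (T (u x)) (A x)‖ ≤ L * jac (A x)) → Rep O u

end Pool.Agent.Lib.MP_a785f2_an.OM
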