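import Pool.Agent.Lib.MP_a785f2_an.OM.Defs
import Pool.Agent.Lib.MP_a785f2_an.LZ.SphM
import Pool.Agent.Lib.MP_a785f2_an.LY.SphT

/-! The sphere lemma for an equation with an antisymmetric term. -/

open MeasureTheory Metric Set Filter Topology
open scoped ContDiff RealInnerProductSpace ENNReal

namespace Pool.Agent.Lib.MP_a785f2_an.OM

open HS (V)
open LZ

variable {n m : ℕ} {P : V m → Op m} {L : ℝ}

/-- The quadratic term of a bilinear map. -/
noncomputable def tor (T : Bi m) (p : W n m) : V m := ‖p‖ ^ (n - 2) • ∑ α, T (p α) (p α)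

/-- The relation on a sphere: up to an antisymmetric term with small oscillation, the relation
for maps into `M` holds. -/
def RlT (P : V m → Op m) (L : ℝ) (M : Set (V m)) : Rl n m := fun v p φ =>
  ∃ (T : S n → Bi m) (T0 : Bi m) (β : S n → ℝ), StronglyMeasurable T ∧ StronglyMeasurable β ∧
    (∀ θ, ‖T θ‖ ≤ L ∧ (∀ a b, ⟪T θ a b, b⟫ = 0) ∧ ‖T θ - T0‖ ≤ β θ ∧ β θ ≤ L ∧
      ‖φ θ - tor (T θ) (p θ)‖ ≤ L * ‖p θ‖ ^ n ∧ PtM P L M (v θ) (p θ) (φ θ - tor (T θ) (p θ))) ∧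
    ∀ a, ∫ θ, β θ ^ 2 ∂sph n ≤ L * ∫ θ, ‖p θ - ten a θ‖ ^ 2 ∂sph n

theorem beL_tor (T : Bi m) (p : W n m) : SM.beL T p (LY.Ap (n - 2) p) = tor T p := by
  rw [LY.Ap, map_smul, SM.beL_apply, tor]

theorem continuous_tor : Continuous fun q : Bi m × W n m => tor q.1 q.2 := by
  refine (continuous_snd.norm.pow _).smul (continuous_finsetSum _ fun α _ => ?_)
  have c : Continuous fun q : Bi m × W n m => q.2 α :=
    (PiLp.proj 2 (fun _ : Fin n => V m) α : W n m →L[ℝ] V m).continuous.comp continuous_snd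
  exact (continuous_fst.clm_apply c).clm_apply c

theorem tor_le (hn : 2 ≤ n) (T : Bi m) (p : W n m) : ‖tor T p‖ ≤ ‖T‖ * ‖p‖ ^ n := by
  rw [← beL_tor]
  refine (SM.beL_le _ _ _).trans (le_of_eq ?_)
  rw [LY.norm_Ap, mul_assoc, ← pow_succ']
  congr 2
  omega

theorem tor_smul (hn : 2 ≤ n) (T : Bi m) {s : ℝ} (hs : 0 ≤ s) (p : W n m) :
    tor T (s • p) = s ^ n • tor T p := by
  have e : s ^ n = s ^ (n - 2) * (s * s) := by
    rw [← sq, ← pow_add]; congr 1; omega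
  simp only [tor, norm_smul, Real.norm_of_nonneg hs, PiLp.smul_apply, map_smul, smul_apply,
    ← Finset.smul_sum, smul_smul, mul_pow, e]
  congr 1
  ring

theorem sphOK_T (hn : 3 ≤ n) (g : Geo P L) {M : Set (V m)}
    (h3 : ∀ q ∈ M, ∀ q' ∈ M, ∀ ν, P q ν = 0 → |⟪ν, q' - q⟫| ≤ L * ‖ν‖ * ‖q' - q‖ ^ 2) :
    SphOK P L (RlT P L M : Rl n m) := by
  intro Cp hCp
  have L1 := g.L1
  have LL : L ≤ L ^ 2 := by nlinarith
  obtain ⟨C, δ, C1, δ0, H⟩ := LY.sphere_lemmaT (n - 2) (L := L ^ 2) (Cp := Cp + L)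
    (one_le_pow₀ g.L1) (by linarith)
  refine ⟨C, by linarith, min δ 1, lt_min δ0 one_pos, fun v p φ s he hz => ?_⟩
  obtain ⟨T, T0, β, mT, mβ, k1, k2⟩ := s.rl
  have mt : StronglyMeasurable fun θ => tor (T θ) (p θ) := by
    have := continuous_tor.comp_stronglyMeasurable (mT.prodMk s.mp)
    exact this
  have s' : Slc L (RlM P L M) Cp v p fun θ => φ θ - tor (T θ) (p θ) :=
    ⟨s.mv, s.mp, s.mf.sub mt, s.ip, s.bv, fun θ => (k1 θ).2.2.2.2.1, fun θ => (k1 θ).2.2.2.2.2,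
      s.po⟩
  have a1 : ∀ θ : S n, φ θ - al P (v θ) (p θ) = φ θ - tor (T θ) (p θ) - al P (v θ) (p θ) +
      SM.beL (T θ) (p θ) (LY.Ap (n - 2) (p θ)) := fun θ => by rw [beL_tor]; abel
  have a2 : AEStronglyMeasurable (fun θ => SM.beL (T θ) (p θ) (LY.Ap (n - 2) (p θ))) (sph n) := by
    simp only [beL_tor]
    exact mt.aestronglyMeasurable
  have a3 : ∀ (θ : S n) (q q' : W n m), ‖SM.beL (T θ) q q'‖ ≤ L ^ 2 * ‖q‖ * ‖q'‖ := fun θ q q' =>
    (SM.beL_le _ _ _).trans (mul_le_mul_of_nonneg_right (mul_le_mul_of_nonneg_right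
      ((k1 θ).1.trans LL) (norm_nonneg _)) (norm_nonneg _))
  have a4 : ∀ (θ : S n) (q q' : W n m),
      ‖SM.beL (T θ) q q' - SM.beL T0 q q'‖ ≤ β θ * ‖q‖ * ‖q'‖ := fun θ q q' => by
    have e : SM.beL (T θ) q q' - SM.beL T0 q q' = SM.beL (T θ - T0) q q' := by
      simp only [SM.beL_apply, sub_apply, Finset.sum_sub_distrib]
    rw [e]
    exact (SM.beL_le _ _ _).trans (mul_le_mul_of_nonneg_right (mul_le_mul_of_nonneg_right
      (k1 θ).2.2.1 (norm_nonneg _)) (norm_nonneg _))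
  have a5 : ∀ (θ : S n) (q : W n m) (c : V m), ⟪SM.beL (T θ) q (SM.ioL (θ : E n) c), c⟫ = 0 :=
    fun θ q c => by rw [SM.beL_io]; exact (k1 θ).2.1 _ _
  have a6 : ∀ (θ : S n) (c : V m) (q : W n m),
      SM.beL T0 (SM.ioL (θ : E n) c) q = T0 c (SM.raL (θ : E n) q) := fun θ c q => by
    have e : ∀ α, (SM.ioL (θ : E n) c : W n m) α = (θ : E n) α • c := fun _ => rfl
    simp only [SM.beL_apply, SM.raL_apply, rad, e, map_sum, map_smul, smul_apply]
  have t : (SM.mk P v p φ).Tor (L ^ 2) (fun θ => φ θ - tor (T θ) (p θ) - al P (v θ) (p θ))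
      (fun θ => SM.beL (T θ)) (SM.beL T0) T0 β :=
    ⟨SM.mk_ok hn g h3 s', a1, a2, mβ.aestronglyMeasurable,
      fun θ => (ContinuousLinearMap.opNorm_nonneg _).trans (k1 θ).2.2.1,
      fun θ => (k1 θ).2.2.2.1.trans LL, a3, a4, a5, a6⟩
  have h1 : (SM.mk P v p φ).e ≤ δ := by
    rw [SM.mk_e (by omega)]
    exact he.trans ((pow_le_of_le_one (lt_min δ0 one_pos).le (min_le_right _ _) (by omega)).trans
      (min_le_left _ _))
  have h2 := H (SM.mk P v p φ) _ _ _ _ _ rfl t 0 le_rfl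
    (hz.mono fun θ h => h.trans (min_le_left _ _)) h1 (by
      rw [SM.mk_a, add_zero]
      refine (s.po (sa p)).trans ?_
      exact mul_le_mul_of_nonneg_right (by linarith) (integral_nonneg fun _ => sq_nonneg _)) (by
      rw [SM.mk_a, add_zero]
      refine (k2 (sa p)).trans ?_
      exact mul_le_mul_of_nonneg_right (by linarith) (integral_nonneg fun _ => sq_nonneg _))
  have e1 : (SM.mk P v p φ).XX = sX p := by
    rw [LY.Sph.XX, SM.mk_e (by omega), SM.mk_F, SM.mk_a, sX]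
  have e2 : (SM.mk P v p φ).NN = sN P v p φ := by
    rw [LY.Sph.NN, SM.mk_g, SM.mk_gp, SM.mk_F, SM.mk_Fp, sN]
  rw [mul_zero, add_zero, e1, e2, SM.mk_hh, SM.mk_F] at h2
  exact h2

end Pool.Agent.Lib.MP_a785f2_an.OM
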