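import Pool.Agent.Lib.MP_a785f2_an.OM.Defs
import Pool.Agent.Lib.MP_a785f2_an.NH.Pull

/-! The statement in coordinates follows from the internal theorem. -/

open MeasureTheory Metric Set Filter Topology
open scoped ContDiff RealInnerProductSpace ENNReal

namespace Pool.Agent.Lib.MP_a785f2_an.OM

open HS NH

variable {n m : ℕ}

/-- Coordinates of a vector. -/
noncomputable def ofl (m : ℕ) : V m →L[ℝ] (Fin m → ℝ) :=
  (PiLp.continuousLinearEquiv 2 ℝ (fun _ : Fin m => ℝ) : V m →L[ℝ] (Fin m → ℝ))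

/-- The bilinear map on the target space with given coefficients. -/
noncomputable def bt (A : Fin m → Fin m → Fin m → ℝ) : Bi m := (bil m m A).comp (ofl m)

theorem bt_apply (A : Fin m → Fin m → Fin m → ℝ) (a b : V m) (i : Fin m) :
    bt A a b i = ∑ j, (∑ l, A l i j * a l) * b j := bil_apply A (ofl m a) b i

theorem bt_sub (A B : Fin m → Fin m → Fin m → ℝ) : bt A - bt B = bt (A - B) := by
  ext a b i
  have e : (bt A - bt B) a b i = bt A a b i - bt B a b i := rfl
  rw [e]
  simp only [bt_apply, Pi.sub_apply, sub_mul, Finset.sum_sub_distrib]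

theorem bt_le : ∃ c : ℝ, 0 ≤ c ∧ ∀ (A : Fin m → Fin m → Fin m → ℝ) (r : ℝ), 0 ≤ r →
    (∀ l i j, |A l i j| ≤ r) → ‖bt A‖ ≤ c * r := by
  obtain ⟨c, c0, hc⟩ := bil_le (k := m) (m := m)
  refine ⟨c, c0, fun A r r0 hA => ?_⟩
  have h1 : ‖A‖ ≤ r := (pi_norm_le_iff_of_nonneg r0).2 fun l =>
    (pi_norm_le_iff_of_nonneg r0).2 fun i => (pi_norm_le_iff_of_nonneg r0).2 fun j => hA l i j
  have h2 := (hc A).trans (mul_le_mul_of_nonneg_left h1 c0)
  refine ContinuousLinearMap.opNorm_le_bound _ (mul_nonneg c0 r0) fun a => ?_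
  have h3 : ‖ofl m a‖ ≤ ‖a‖ :=
    (pi_norm_le_iff_of_nonneg (norm_nonneg a)).2 fun i => PiLp.norm_apply_le a i
  exact ((bil m m A).le_of_opNorm_le h2 (ofl m a)).trans
    (mul_le_mul_of_nonneg_left h3 (mul_nonneg c0 r0))

theorem bt_anti {A : Fin m → Fin m → Fin m → ℝ} (hs : ∀ l i j, A l j i = -A l i j) (a b : V m) :
    ⟪bt A a b, b⟫ = 0 := by
  have e : ⟪bt A a b, b⟫ = ∑ i, ∑ j, (∑ l, A l i j * a l) * b j * b i := by
    rw [PiLp.inner_apply]
    refine Finset.sum_congr rfl fun i _ => ?_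
    rw [bt_apply, ← Finset.sum_mul]
    simp [mul_comm]
  have e2 : ∑ i, ∑ j, (∑ l, A l i j * a l) * b j * b i =
      -∑ i, ∑ j, (∑ l, A l i j * a l) * b j * b i := by
    conv_lhs => rw [Finset.sum_comm]
    rw [← Finset.sum_neg_distrib]
    refine Finset.sum_congr rfl fun i _ => ?_
    rw [← Finset.sum_neg_distrib]
    refine Finset.sum_congr rfl fun j _ => ?_
    simp only [hs _ i j, neg_mul, Finset.sum_neg_distrib]
    ring
  rw [e]
  linarith

theorem top_quad (hn : 2 ≤ n) {T : Bi m} {L : ℝ} (hT : ‖T‖ ≤ L) (A : D n →L[ℝ] V m) :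
    ‖quadT T A‖ ≤ n * L * fro A ^ n := by
  have f0 := fro_nonneg A
  have L0 : 0 ≤ L := (ContinuousLinearMap.opNorm_nonneg T).trans hT
  have h2 : ‖∑ α, T (col A α) (col A α)‖ ≤ n * (L * fro A * fro A) := by
    refine (norm_sum_le_of_le (f := fun α => T (col A α) (col A α))
      (n := fun _ => L * fro A * fro A) _ fun α _ => ?_).trans (by simp)
    refine (ContinuousLinearMap.le_opNorm₂ _ _ _).trans ?_
    have h4 := col_le_fro A α
    gcongr
  have h6 : fro A ^ n = fro A ^ (n - 2) * fro A ^ 2 := by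
    rw [← pow_add]; congr 1; omega
  rw [quadT, norm_smul, Real.norm_of_nonneg (pow_nonneg f0 _), h6]
  calc _ ≤ fro A ^ (n - 2) * (n * (L * fro A * fro A)) :=
        mul_le_mul_of_nonneg_left h2 (pow_nonneg f0 _)
    _ = _ := by ring

theorem top (hn : 2 ≤ n) (hC : CoreT n) (w : Fin m → Fin m → Fin m → E m → ℝ) (Λ : ℝ)
    (hb : ∀ k i j y, |w k i j y| ≤ Λ)
    (hl : ∀ k i j y y', |w k i j y - w k i j y'| ≤ Λ * ‖y - y'‖)
    (hs : ∀ k i j y, w k j i y = -w k i j y)
    (u : Fin m → E n → ℝ) (G : Fin m → Fin n → E n → ℝ) (h : Fin m → E n → ℝ) (hu : IsW1n u G)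
    (hm : ∀ i, AEStronglyMeasurable (h i) (ballMeasure n))
    (hh : ∀ i, ∀ᵐ x ∂(ballMeasure n), |h i x| ≤
      Λ * ∑ I : Fin n → Fin m, |(Matrix.of fun a α => G (I a) α x).det|)
    (he : ∀ i φ, IsTest φ →
      ∫ x, ∑ α, gradNorm G x ^ (n - 2) * G i α x * pd α φ x ∂(ballMeasure n) =
        ∫ x, ((∑ j, ∑ α, (∑ k, w k i j (pt u x) * G k α x) * (gradNorm G x ^ (n - 2) * G j α x)) +
          h i x) * φ x ∂(ballMeasure n)) : HasContinuousRep u := by
  obtain ⟨c, c0, hc⟩ := bt_le (m := m)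
  have a0 := abs_nonneg Λ
  have a1 := le_abs_self Λ
  have a2 : 0 ≤ c * |Λ| := mul_nonneg c0 a0
  have a3 : 0 ≤ (m : ℝ) * |Λ| := by positivity
  have T : Anti (fun y : V m => bt fun k i j => w k i j y) (1 + c * |Λ| + m * |Λ|) := by
    refine ⟨by linarith, fun q => ?_, fun q q' => ?_, fun q => bt_anti fun l i j => hs l i j q⟩
    · linarith [hc (fun k i j => w k i j q) |Λ| a0 fun l i j => (hb l i j q).trans a1]
    · rw [bt_sub]
      refine (hc _ (|Λ| * ‖q - q'‖) (by positivity) fun l i j => (hl l i j q q').trans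
        (mul_le_mul_of_nonneg_right a1 (norm_nonneg _))).trans ?_
      rw [← mul_assoc]
      exact mul_le_mul_of_nonneg_right (by linarith) (norm_nonneg _)
  have hfro : ∀ x, fro (trM fun i α => G i α x) = gradNorm G x := fun x => trM_fro _
  have key : ∀ x i, ∑ j, ∑ α, (∑ k, w k i j (pt u x) * G k α x) *
      (gradNorm G x ^ (n - 2) * G j α x) =
      quadT (bt fun k i j => w k i j (pt u x)) (trM fun i α => G i α x) i := fun x i => by
    simp only [quadT, hfro, WithLp.ofLp_smul, WithLp.ofLp_sum, Pi.smul_apply, Finset.sum_apply,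
      bt_apply, smul_eq_mul, Finset.mul_sum, trM_col]
    rw [Finset.sum_comm]
    refine Finset.sum_congr rfl fun α _ => Finset.sum_congr rfl fun j _ => ?_
    ring
  have lG : MemLp (fun x => trM fun i α => G i α x) n (ballMeasure n) := trM_memLp hu.2.1
  have mu : AEStronglyMeasurable (pt u) (ballMeasure n) := (MemLp.of_eval_piLp hu.1).1
  have mfro : AEStronglyMeasurable (fun x => fro (trM fun i α => G i α x)) (ballMeasure n) :=
    continuous_fro.comp_aestronglyMeasurable lG.1
  have ifro : Integrable (fun x => fro (trM fun i α => G i α x) ^ n) (ballMeasure n) := by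
    refine ((lG.integrable_norm_pow (by omega)).const_mul ((n : ℝ) ^ n)).mono' (mfro.pow n)
      (ae_of_all _ fun x => ?_)
    rw [Real.norm_of_nonneg (pow_nonneg (fro_nonneg _) _), ← mul_pow]
    exact pow_le_pow_left₀ (fro_nonneg _) (fro_le_norm _) n
  have hj : ∀ᵐ x ∂(ballMeasure n), ∀ i, |h i x| ≤ |Λ| * jac (trM fun i α => G i α x) := by
    refine ae_all_iff.2 fun i => (hh i).mono fun x hx => ?_
    rw [← trM_jac fun i α => G i α x] at hx
    exact hx.trans (mul_le_mul_of_nonneg_right a1 (jac_nonneg _))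
  refine transfer2 hn (fun y A f => ‖f - quadT (bt fun k i j => w k i j y) A‖ ≤
      (1 + c * |Λ| + m * |Λ|) * jac A)
    (fun Ω u G F S h => hC m _ _ Ω u G F T S h) u G _ hu (fun i => Integrable.add ?_ ?_) ?_ he
  · refine (ifro.const_mul (n * (1 + c * |Λ| + m * |Λ|))).mono' ?_ (ae_of_all _ fun x => ?_)
    · refine Finset.aestronglyMeasurable_fun_sum _ fun j _ =>
        Finset.aestronglyMeasurable_fun_sum _ fun α _ => AEStronglyMeasurable.mul ?_
          (AEStronglyMeasurable.mul ?_ (hu.2.1 j α).1)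
      · refine Finset.aestronglyMeasurable_fun_sum _ fun l _ => AEStronglyMeasurable.mul
          (Continuous.comp_aestronglyMeasurable ?_ mu) (hu.2.1 l α).1
        refine (LipschitzWith.of_dist_le_mul (K := ⟨|Λ|, a0⟩) fun y y' => ?_).continuous
        rw [dist_eq_norm, dist_eq_norm]
        exact (hl l i j y y').trans (mul_le_mul_of_nonneg_right a1 (norm_nonneg _))
      · simp only [← hfro]
        exact mfro.pow _
    · rw [key]
      exact (PiLp.norm_apply_le _ i).trans (top_quad hn (T.bd (pt u x)) _)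
  · refine (ifro.const_mul (|Λ| * ((m : ℝ) ^ n * n.factorial))).mono' (hm i)
      (hj.mono fun x hx => (hx i).trans ?_)
    rw [mul_assoc]
    exact mul_le_mul_of_nonneg_left (jac_le _) a0
  · refine hj.mono fun x hx => ?_
    have j0 := jac_nonneg (trM fun i α => G i α x)
    have e : (WithLp.toLp 2 fun i => (∑ j, ∑ α, (∑ k, w k i j (pt u x) * G k α x) *
        (gradNorm G x ^ (n - 2) * G j α x)) + h i x : V m) -
        quadT (bt fun k i j => w k i j (pt u x)) (trM fun i α => G i α x) =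
        ∑ i, EuclideanSpace.single i (h i x) := by
      ext i
      simp only [key, WithLp.ofLp_sub, Pi.sub_apply, add_sub_cancel_left, WithLp.ofLp_sum,
        Finset.sum_apply]
      simp
    refine (le_of_eq (congrArg norm e)).trans ?_
    refine (norm_sum_le_of_le (n := fun _ => |Λ| * jac (trM fun i α => G i α x)) _
      fun i _ => ?_).trans ?_
    · simpa using hx i
    · simp only [Finset.sum_const, Finset.card_univ, Fintype.card_fin, nsmul_eq_mul]
      rw [← mul_assoc]
      exact mul_le_mul_of_nonneg_right (by linarith) j0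

end Pool.Agent.Lib.MP_a785f2_an.OM
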